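import Mathlib

/-!
Signs of the lowest and highest coefficients of a polynomial that is nonnegative on the positive
half line, and of its even and odd parts.
-/

set_option autoImplicit false

open Polynomial Set

namespace Pool.Agent.MP_fe2d2a_an

lemma low_coeff {Q : ℝ[X]} {m : ℕ} (h : ∀ x : ℝ, 0 < x → 0 ≤ Q.eval x)
    (h0 : ∀ i < m, Q.coeff i = 0) : 0 ≤ Q.coeff m := by
  obtain ⟨R, hR⟩ := X_pow_dvd_iff.2 h0
  have h1 : ∀ x : ℝ, 0 < x → 0 ≤ R.eval x := by
    intro x hx
    have := h x hx
    rw [hR, eval_mul, eval_pow, eval_X] at this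
    exact nonneg_of_mul_nonneg_right this (pow_pos hx m)
  have h2 : Q.coeff m = R.eval 0 := by
    rw [hR, coeff_X_pow_mul', if_pos le_rfl, Nat.sub_self, coeff_zero_eq_eval_zero]
  rw [h2]
  have hc : Filter.Tendsto (fun x : ℝ => R.eval x) (nhdsWithin 0 (Ioi 0)) (nhds (R.eval 0)) :=
    (R.continuous.tendsto 0).mono_left nhdsWithin_le_nhds
  refine ge_of_tendsto hc ?_
  filter_upwards [self_mem_nhdsWithin] with x hx
  exact h1 x hx

lemma high_coeff {Q : ℝ[X]} {m : ℕ} (h : ∀ x : ℝ, 0 < x → 0 ≤ Q.eval x)
    (h0 : Q.natDegree ≤ m) : 0 ≤ Q.coeff m := by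
  have h1 : (Q.reflect m).coeff 0 = Q.coeff m := by
    rw [coeff_reflect, revAt_zero]
  rw [← h1]
  apply low_coeff
  · intro x hx
    have : Invertible (x⁻¹) := invertibleOfNonzero (inv_ne_zero hx.ne')
    have h2 := eval₂_reflect_mul_pow (RingHom.id ℝ) (x⁻¹) m Q h0
    rw [invOf_eq_inv, inv_inv] at h2
    have h3 : 0 ≤ eval₂ (RingHom.id ℝ) (x⁻¹) Q := h (x⁻¹) (inv_pos.2 hx)
    rw [← h2] at h3
    exact nonneg_of_mul_nonneg_left h3 (pow_pos (inv_pos.2 hx) m)
  · intro i hi
    omega

/-- The four coefficients. -/
theorem coeff_signs {D : ℝ[X]} {n : ℕ} (hn : D.natDegree ≤ 2 * n) (h0 : D.coeff 0 = 0)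
    (h1 : D.coeff (2 * n) = 0)
    (he : ∀ x : ℝ, 0 < x → 0 ≤ D.eval x + D.eval (-x))
    (ho : ∀ x : ℝ, 0 < x → 0 ≤ D.eval x - D.eval (-x)) (j : ℕ) (hj : j ≤ 2 ∨ 2 * n ≤ j + 2) :
    0 ≤ D.coeff j := by
  set Qe : ℝ[X] := D + D.comp (C (-1) * X) with hQe
  set Qo : ℝ[X] := D - D.comp (C (-1) * X) with hQo
  have ce : ∀ i, Qe.coeff i = D.coeff i + D.coeff i * (-1) ^ i := by
    intro i
    rw [hQe, coeff_add, comp_C_mul_X_coeff]
  have co : ∀ i, Qo.coeff i = D.coeff i - D.coeff i * (-1) ^ i := by
    intro i
    rw [hQo, coeff_sub, comp_C_mul_X_coeff]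
  have hQe' : ∀ x : ℝ, 0 < x → 0 ≤ Qe.eval x := by
    intro x hx
    have := he x hx
    rw [hQe]
    simpa [eval_comp] using this
  have hQo' : ∀ x : ℝ, 0 < x → 0 ≤ Qo.eval x := by
    intro x hx
    have := ho x hx
    rw [hQo]
    simpa [eval_comp] using this
  have hbig : ∀ i, 2 * n < i → D.coeff i = 0 := fun i hi =>
    coeff_eq_zero_of_natDegree_lt (by omega)
  rcases hj with hj | hj
  · rcases Nat.lt_or_ge j 1 with h | h
    · have : j = 0 := by omega
      rw [this, h0]
    rcases Nat.lt_or_ge j 2 with h' | h'
    · have : j = 1 := by omega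
      subst this
      have := low_coeff (m := 1) hQo' (by
        intro i hi
        have : i = 0 := by omega
        subst this
        rw [co, h0]
        simp)
      rw [co] at this
      norm_num at this
      exact this
    · have : j = 2 := by omega
      subst this
      have := low_coeff (m := 2) hQe' (by
        intro i hi
        rcases Nat.lt_or_ge i 1 with h | h
        · have : i = 0 := by omega
          subst this
          rw [ce, h0]
          simp
        · have : i = 1 := by omega
          subst this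
          rw [ce]
          simp)
      rw [ce] at this
      norm_num at this
      exact this
  · rcases Nat.lt_or_ge (2 * n) j with h | h
    · rw [hbig j h]
    rcases Nat.lt_or_ge j (2 * n) with h' | h'
    · rcases Nat.lt_or_ge (j + 1) (2 * n) with h'' | h''
      · -- j = 2 n - 2
        have hj2 : j + 2 = 2 * n := by omega
        have hev : Even j := ⟨n - 1, by omega⟩
        have := high_coeff (m := j) hQe' (by
          rw [natDegree_le_iff_coeff_eq_zero]
          intro i hi
          rcases Nat.lt_or_ge (2 * n) i with h3 | h3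
          · rw [ce, hbig i h3]
            simp
          rcases Nat.lt_or_ge i (2 * n) with h4 | h4
          · have h5 : Odd i := ⟨n - 1, by omega⟩
            rw [ce, h5.neg_one_pow]
            ring
          · have : i = 2 * n := by omega
            rw [this, ce, h1]
            simp)
        rw [ce, hev.neg_one_pow] at this
        linarith
      · have hj2 : j + 1 = 2 * n := by omega
        have hod : Odd j := ⟨n - 1, by omega⟩
        have := high_coeff (m := j) hQo' (by
          rw [natDegree_le_iff_coeff_eq_zero]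
          intro i hi
          rcases Nat.lt_or_ge (2 * n) i with h3 | h3
          · rw [co, hbig i h3]
            simp
          · have : i = 2 * n := by omega
            rw [this, co, h1]
            simp)
        rw [co, hod.neg_one_pow] at this
        linarith
    · have : j = 2 * n := by omega
      rw [this, h1]

end Pool.Agent.MP_fe2d2a_an
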