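import Mathlib

/-!
Even and odd parts of a polynomial, and monotonicity of `|p (r e^{iθ})|` in `θ` for a polynomial
whose roots have negative imaginary part or are nonnegative reals.
-/

set_option autoImplicit false

open Polynomial Set

namespace Pool.Agent.MP_fe2d2a_an

lemma parts_eq (f : ℂ[X]) :
    f = expand ℂ 2 (contract 2 f) + X * expand ℂ 2 (contract 2 f.divX) := by
  ext m
  rw [coeff_add, coeff_expand (by norm_num), coeff_contract (by norm_num)]
  cases m with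
  | zero => simp
  | succ m =>
    rw [coeff_X_mul, coeff_expand (by norm_num), coeff_contract (by norm_num), coeff_divX]
    by_cases h : 2 ∣ m + 1
    · have h2 : ¬ 2 ∣ m := by omega
      rw [if_pos h, if_neg h2, Nat.div_mul_cancel h, add_zero]
    · have h2 : 2 ∣ m := by omega
      rw [if_neg h, if_pos h2, Nat.div_mul_cancel h2, zero_add]

lemma parts_eval (f : ℂ[X]) (ξ : ℂ) :
    f.eval ξ = (contract 2 f).eval (ξ ^ 2) + ξ * (contract 2 f.divX).eval (ξ ^ 2) := by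
  conv_lhs => rw [parts_eq f]
  simp [expand_eval]

/-- The admissible region for roots. -/
def Good (z : ℂ) : Prop := z.im < 0 ∨ (z.im = 0 ∧ 0 ≤ z.re)

lemma exists_sqrt {z : ℂ} (h : ¬ Good z) : ∃ ξ : ℂ, ξ ^ 2 = z ∧ 0 ≤ ξ.re ∧ 0 < ξ.im := by
  obtain ⟨ζ, hζ⟩ : ∃ ζ : ℂ, ζ ^ 2 = z := IsAlgClosed.exists_pow_nat_eq z (by norm_num)
  have key : ∀ ζ : ℂ, ζ ^ 2 = z → 0 < ζ.im → 0 ≤ ζ.re := by
    intro ζ hζ hi
    by_contra hr
    push Not at hr
    apply h
    left
    rw [← hζ, sq, Complex.mul_im]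
    nlinarith
  have hz : ζ.im ≠ 0 := by
    intro h0
    apply h
    right
    rw [← hζ, sq, Complex.mul_im, Complex.mul_re, h0]
    constructor
    · ring
    · nlinarith [sq_nonneg ζ.re]
  rcases lt_or_gt_of_ne hz with h1 | h1
  · refine ⟨-ζ, by rw [neg_sq]; exact hζ, key (-ζ) (by rw [neg_sq]; exact hζ) (by simpa using h1),
      by simpa using h1⟩
  · exact ⟨ζ, hζ, key ζ hζ h1, h1⟩

/-- The derivative of `θ ↦ Re z cos θ + Im z sin θ` is nonpositive near `0+`. -/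
lemma exists_delta {z : ℂ} (h : Good z) :
    ∃ δ > (0 : ℝ), ∀ θ ∈ Icc (0 : ℝ) δ, -z.re * Real.sin θ + z.im * Real.cos θ ≤ 0 := by
  rcases h with h | ⟨h1, h2⟩
  · have hc : Continuous (fun θ : ℝ => -z.re * Real.sin θ + z.im * Real.cos θ) := by fun_prop
    have h0 : (fun θ : ℝ => -z.re * Real.sin θ + z.im * Real.cos θ) 0 < 0 := by simpa using h
    have := hc.continuousAt.eventually_lt (continuousAt_const (y := (0 : ℝ))) h0
    rw [Metric.eventually_nhds_iff] at this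
    obtain ⟨ε, hε, h3⟩ := this
    refine ⟨ε / 2, by positivity, ?_⟩
    intro θ hθ
    refine le_of_lt (h3 ?_)
    rw [Real.dist_eq, sub_zero, abs_of_nonneg hθ.1]
    linarith [hθ.2]
  · refine ⟨1, one_pos, ?_⟩
    intro θ hθ
    rw [h1]
    have : 0 ≤ Real.sin θ := by
      apply Real.sin_nonneg_of_nonneg_of_le_pi hθ.1
      linarith [hθ.2, Real.pi_gt_three]
    nlinarith

lemma exists_delta_multiset (s : Multiset ℂ) (h : ∀ z ∈ s, Good z) :
    ∃ δ > (0 : ℝ), ∀ z ∈ s, ∀ θ ∈ Icc (0 : ℝ) δ,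
      -z.re * Real.sin θ + z.im * Real.cos θ ≤ 0 := by
  induction s using Multiset.induction_on with
  | empty => exact ⟨1, one_pos, by simp⟩
  | cons z s ih =>
    obtain ⟨δ, hδ, h1⟩ := ih (fun w hw => h w (Multiset.mem_cons_of_mem hw))
    obtain ⟨δ', hδ', h2⟩ := exists_delta (h z (Multiset.mem_cons_self z s))
    refine ⟨min δ δ', lt_min hδ hδ', ?_⟩
    intro w hw θ hθ
    rcases Multiset.mem_cons.1 hw with rfl | hw
    · exact h2 θ ⟨hθ.1, hθ.2.trans (min_le_right _ _)⟩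
    · exact h1 w hw θ ⟨hθ.1, hθ.2.trans (min_le_left _ _)⟩

lemma antitone_aux {z : ℂ} {δ : ℝ}
    (h : ∀ θ ∈ Icc (0 : ℝ) δ, -z.re * Real.sin θ + z.im * Real.cos θ ≤ 0) :
    AntitoneOn (fun θ : ℝ => z.re * Real.cos θ + z.im * Real.sin θ) (Icc 0 δ) := by
  have hd : ∀ θ : ℝ, HasDerivAt (fun θ : ℝ => z.re * Real.cos θ + z.im * Real.sin θ)
      (-z.re * Real.sin θ + z.im * Real.cos θ) θ := by
    intro θ
    have h1 := (Real.hasDerivAt_cos θ).const_mul z.re
    have h2 := (Real.hasDerivAt_sin θ).const_mul z.im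
    exact (h1.fun_add h2).congr_deriv (by ring)
  apply antitoneOn_of_deriv_nonpos (convex_Icc 0 δ)
  · exact fun θ _ => (hd θ).continuousAt.continuousWithinAt
  · exact fun θ _ => (hd θ).differentiableAt.differentiableWithinAt
  · intro θ hθ
    rw [interior_Icc] at hθ
    rw [(hd θ).deriv]
    exact h θ ⟨hθ.1.le, hθ.2.le⟩

lemma norm_sub_le_of {z : ℂ} {δ r : ℝ} (hr : 0 ≤ r)
    (h : ∀ θ ∈ Icc (0 : ℝ) δ, -z.re * Real.sin θ + z.im * Real.cos θ ≤ 0)
    {s t : ℝ} (hs : s ∈ Icc (0 : ℝ) δ) (ht : t ∈ Icc (0 : ℝ) δ) (hst : s ≤ t) :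
    ‖(r : ℂ) * Complex.exp (s * Complex.I) - z‖ ≤ ‖(r : ℂ) * Complex.exp (t * Complex.I) - z‖ := by
  have key := antitone_aux h hs ht hst
  simp only at key
  have hsq : ∀ u : ℝ, ‖(r : ℂ) * Complex.exp (u * Complex.I) - z‖ ^ 2 =
      r ^ 2 + (z.re ^ 2 + z.im ^ 2) - 2 * r * (z.re * Real.cos u + z.im * Real.sin u) := by
    intro u
    rw [← Complex.normSq_eq_norm_sq, Complex.normSq_apply, Complex.exp_mul_I]
    simp only [Complex.sub_re, Complex.sub_im, Complex.mul_re, Complex.mul_im, Complex.add_re,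
      Complex.add_im, Complex.ofReal_re, Complex.ofReal_im, ← Complex.ofReal_cos,
      ← Complex.ofReal_sin, Complex.I_re, Complex.I_im]
    have := Real.sin_sq_add_cos_sq u
    nlinarith [this]
  rw [← sq_le_sq₀ (norm_nonneg _) (norm_nonneg _), hsq, hsq]
  nlinarith

/-- Monotonicity in the angle of the modulus of a polynomial with good roots. -/
theorem norm_eval_mono {p : ℂ[X]} {δ : ℝ}
    (h : ∀ z ∈ p.roots, ∀ θ ∈ Icc (0 : ℝ) δ, -z.re * Real.sin θ + z.im * Real.cos θ ≤ 0)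
    {r : ℝ} (hr : 0 ≤ r) {s t : ℝ} (hs : s ∈ Icc (0 : ℝ) δ) (ht : t ∈ Icc (0 : ℝ) δ)
    (hst : s ≤ t) :
    ‖p.eval ((r : ℂ) * Complex.exp (s * Complex.I))‖ ≤
      ‖p.eval ((r : ℂ) * Complex.exp (t * Complex.I))‖ := by
  have hsplit : Splits p := IsAlgClosed.splits p
  rw [hsplit.eval_eq_prod_roots, hsplit.eval_eq_prod_roots, norm_mul, norm_mul]
  apply mul_le_mul_of_nonneg_left _ (norm_nonneg _)
  have hn : ∀ m : Multiset ℂ, ‖m.prod‖ = (m.map (fun z => ‖z‖)).prod := by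
    intro m
    induction m using Multiset.induction_on with
    | empty => simp
    | cons a m ih => simp [ih]
  rw [hn, hn, Multiset.map_map, Multiset.map_map]
  apply Multiset.prod_map_le_prod_map₀
  · intro z _
    exact norm_nonneg _
  · intro z hz
    exact norm_sub_le_of hr (h z hz) hs ht hst

end Pool.Agent.MP_fe2d2a_an
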