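import Mathlib

/-!
A finite product `F ξ = ∏ (ξ - w k)` with all `w k` in the open lower half plane; if
`‖F (-x)‖ ≤ ‖F x‖` for all real `x > 0`, then `‖F (-ξ)‖ < ‖F ξ‖` in the open first quadrant
and on the positive imaginary axis.
-/

set_option autoImplicit false

open Complex Set Filter Topology Asymptotics Bornology

namespace Pool.Agent.MP_fe2d2a_an

variable {n : ℕ}

/-- The product `∏ (ξ - w k)`. -/
noncomputable def FF (w : Fin n → ℂ) (ξ : ℂ) : ℂ := ∏ k, (ξ - w k)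

lemma FF_ne {w : Fin n → ℂ} (hw : ∀ k, (w k).im < 0) {ξ : ℂ} (h : 0 ≤ ξ.im) : FF w ξ ≠ 0 := by
  unfold FF
  rw [Finset.prod_ne_zero_iff]
  intro k _ h0
  have h1 : ξ = w k := sub_eq_zero.1 h0
  have h2 := hw k
  rw [← h1] at h2
  linarith

lemma differentiable_FF (w : Fin n → ℂ) : Differentiable ℂ (FF w) := by
  unfold FF
  have : ∀ k ∈ (Finset.univ : Finset (Fin n)), Differentiable ℂ (fun ξ : ℂ => ξ - w k) := by
    intro k _
    exact differentiable_id.sub_const _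
  convert Differentiable.fun_finsetProd this using 1

/-- The quotient. -/
noncomputable def GG (w : Fin n → ℂ) (ξ : ℂ) : ℂ := FF w (-ξ) / FF w ξ

lemma GG_eq (w : Fin n → ℂ) (ξ : ℂ) : GG w ξ = ∏ k, ((-ξ - w k) / (ξ - w k)) := by
  unfold GG FF
  rw [Finset.prod_div_distrib]

lemma norm_factor_le {w ξ : ℂ} (hw : w.im < 0) (h : 0 ≤ ξ.im) :
    ‖(-ξ - w) / (ξ - w)‖ ≤ 1 + 2 * ‖w‖ / (-w.im) := by
  have h1 : 0 < ‖ξ - w‖ := by
    rw [norm_pos_iff, sub_ne_zero]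
    rintro rfl
    linarith
  have h2 : -w.im ≤ ‖ξ - w‖ := by
    have := Complex.abs_im_le_norm (ξ - w)
    rw [Complex.sub_im] at this
    have h3 : ξ.im - w.im ≤ |ξ.im - w.im| := le_abs_self _
    linarith
  have h4 : ‖-ξ - w‖ ≤ ‖ξ - w‖ + 2 * ‖w‖ := by
    have : -ξ - w = -(ξ - w) - 2 * w := by ring
    rw [this]
    refine (norm_sub_le _ _).trans ?_
    rw [norm_neg, norm_mul]
    simp
  have h5 : 0 < -w.im := by linarith
  rw [norm_div, div_le_iff₀ h1]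
  have h6 : 2 * ‖w‖ ≤ 2 * ‖w‖ / (-w.im) * ‖ξ - w‖ := by
    rw [div_mul_eq_mul_div, le_div_iff₀ h5]
    have : 0 ≤ ‖w‖ := norm_nonneg _
    nlinarith
  linarith

lemma GG_bounded {w : Fin n → ℂ} (hw : ∀ k, (w k).im < 0) :
    ∃ B : ℝ, ∀ ξ : ℂ, 0 ≤ ξ.im → ‖GG w ξ‖ ≤ B := by
  refine ⟨∏ k, (1 + 2 * ‖w k‖ / (-(w k).im)), ?_⟩
  intro ξ h
  rw [GG_eq, norm_prod]
  exact Finset.prod_le_prod (fun k _ => norm_nonneg _) (fun k _ => norm_factor_le (hw k) h)

lemma GG_diff {w : Fin n → ℂ} (hw : ∀ k, (w k).im < 0) {ξ : ℂ} (h : 0 ≤ ξ.im) :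
    DifferentiableAt ℂ (GG w) ξ := by
  unfold GG
  refine DifferentiableAt.div ?_ (differentiable_FF w ξ) (FF_ne hw h)
  exact (differentiable_FF w).differentiableAt.comp ξ differentiable_neg.differentiableAt

lemma closure_quadrant :
    closure ((Ioi (0 : ℝ)) ×ℂ (Ioi (0 : ℝ))) = (Ici (0 : ℝ)) ×ℂ (Ici (0 : ℝ)) := by
  rw [closure_reProdIm, closure_Ioi]

lemma GG_diffContOnCl {w : Fin n → ℂ} (hw : ∀ k, (w k).im < 0) :
    DiffContOnCl ℂ (GG w) ((Ioi (0 : ℝ)) ×ℂ (Ioi (0 : ℝ))) := by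
  apply DifferentiableOn.diffContOnCl
  rw [closure_quadrant]
  intro ξ hξ
  rw [mem_reProdIm] at hξ
  exact (GG_diff hw hξ.2).differentiableWithinAt

lemma norm_factor_imag {w : ℂ} (hw : w.im < 0) {η : ℝ} (h : 0 < η) :
    ‖-((η : ℂ) * I) - w‖ < ‖(η : ℂ) * I - w‖ := by
  rw [← sq_lt_sq₀ (norm_nonneg _) (norm_nonneg _), ← Complex.normSq_eq_norm_sq,
    ← Complex.normSq_eq_norm_sq, Complex.normSq_apply, Complex.normSq_apply]
  simp only [sub_re, neg_re, mul_re, ofReal_re, I_re, mul_zero, ofReal_im, I_im, mul_one, sub_self,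
    neg_zero, zero_sub, sub_im, neg_im, mul_im, add_zero]
  nlinarith

lemma norm_FF_imag {w : Fin n → ℂ} (hw : ∀ k, (w k).im < 0) (hn : n ≠ 0) {η : ℝ} (h : 0 < η) :
    ‖FF w (-((η : ℂ) * I))‖ < ‖FF w ((η : ℂ) * I)‖ := by
  unfold FF
  rw [norm_prod, norm_prod]
  have hne : (Finset.univ : Finset (Fin n)).Nonempty := by
    have : NeZero n := ⟨hn⟩
    exact Finset.univ_nonempty
  by_cases h0 : ∃ k, ‖-((η : ℂ) * I) - w k‖ = 0
  · obtain ⟨k, hk⟩ := h0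
    rw [Finset.prod_eq_zero (Finset.mem_univ k) hk]
    apply Finset.prod_pos
    intro i _
    exact lt_of_le_of_lt (norm_nonneg _) (norm_factor_imag (hw i) h)
  · push Not at h0
    apply Finset.prod_lt_prod_of_nonempty
    · intro k _
      exact lt_of_le_of_ne (norm_nonneg _) (Ne.symm (h0 k))
    · intro k _
      exact norm_factor_imag (hw k) h
    · exact hne

theorem norm_GG_le {w : Fin n → ℂ} (hw : ∀ k, (w k).im < 0)
    (hx : ∀ x : ℝ, 0 < x → ‖FF w (-(x : ℂ))‖ ≤ ‖FF w x‖) {ξ : ℂ} (h1 : 0 ≤ ξ.re)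
    (h2 : 0 ≤ ξ.im) : ‖GG w ξ‖ ≤ 1 := by
  obtain ⟨B, hB⟩ := GG_bounded hw
  have hB0 : 0 ≤ B := le_trans (norm_nonneg _) (hB 0 (by simp))
  refine PhragmenLindelof.quadrant_I (GG_diffContOnCl hw) ?_ ?_ ?_ h1 h2
  · refine ⟨1, by norm_num, 0, ?_⟩
    refine Asymptotics.IsBigO.of_bound B ?_
    have : ∀ᶠ z in (cobounded ℂ ⊓ 𝓟 ((Ioi (0 : ℝ)) ×ℂ (Ioi (0 : ℝ)))),
        z ∈ (Ioi (0 : ℝ)) ×ℂ (Ioi (0 : ℝ)) :=
      Filter.mem_inf_of_right (Filter.mem_principal_self _)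
    filter_upwards [this] with z hz
    rw [mem_reProdIm] at hz
    simpa using hB z (le_of_lt hz.2)
  · intro x hx0
    rcases eq_or_lt_of_le hx0 with h0 | h0
    · rw [← h0]
      have : FF w ((0 : ℝ) : ℂ) ≠ 0 := FF_ne hw (by simp)
      unfold GG
      simp only [ofReal_zero, neg_zero] at *
      rw [div_self this]
      simp
    · unfold GG
      rw [norm_div]
      have h3 : 0 < ‖FF w x‖ := norm_pos_iff.2 (FF_ne hw (by simp))
      rw [div_le_one h3]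
      exact hx x h0
  · intro x hx0
    rcases eq_or_lt_of_le hx0 with h0 | h0
    · rw [← h0]
      have : FF w 0 ≠ 0 := FF_ne hw (by simp)
      unfold GG
      simp only [ofReal_zero, zero_mul, neg_zero]
      rw [div_self this]
      simp
    · unfold GG
      rw [norm_div]
      have h3 : 0 < ‖FF w (x * I)‖ := norm_pos_iff.2 (FF_ne hw (by simp [hx0]))
      rw [div_le_one h3]
      by_cases hn : n = 0
      · subst hn
        simp [FF]
      · exact (norm_FF_imag hw hn h0).le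

theorem norm_GG_lt {w : Fin n → ℂ} (hw : ∀ k, (w k).im < 0) (hn : n ≠ 0)
    (hx : ∀ x : ℝ, 0 < x → ‖FF w (-(x : ℂ))‖ ≤ ‖FF w x‖) {ξ : ℂ} (h1 : 0 ≤ ξ.re)
    (h2 : 0 < ξ.im) : ‖FF w (-ξ)‖ < ‖FF w ξ‖ := by
  rcases eq_or_lt_of_le h1 with h0 | h0
  · have e : ξ = (ξ.im : ℂ) * I := by
      apply Complex.ext
      · simp [← h0]
      · simp
    rw [e]
    exact norm_FF_imag hw hn h2
  · have hF : 0 < ‖FF w ξ‖ := norm_pos_iff.2 (FF_ne hw h2.le)
    by_contra hcon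
    push Not at hcon
    have h3 : 1 ≤ ‖GG w ξ‖ := by
      unfold GG
      rw [norm_div, le_div_iff₀ hF, one_mul]
      exact hcon
    have h4 : ‖GG w ξ‖ = 1 := le_antisymm (norm_GG_le hw hx h1 h2.le) h3
    have hop : IsOpen ((Ioi (0 : ℝ)) ×ℂ (Ioi (0 : ℝ))) := isOpen_Ioi.reProdIm isOpen_Ioi
    have hconv : Convex ℝ ((Ioi (0 : ℝ)) ×ℂ (Ioi (0 : ℝ))) := by
      have e1 : (Ioi (0 : ℝ)) ×ℂ (Ioi (0 : ℝ)) = {z : ℂ | 0 < z.re} ∩ {z : ℂ | 0 < z.im} := rfl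
      rw [e1]
      exact (convex_halfSpace_re_gt 0).inter (convex_halfSpace_im_gt 0)
    have hmem : ξ ∈ (Ioi (0 : ℝ)) ×ℂ (Ioi (0 : ℝ)) := by
      rw [mem_reProdIm]
      exact ⟨h0, h2⟩
    have key := Complex.norm_eqOn_closure_of_isPreconnected_of_isMaxOn hconv.isPreconnected hop
      (GG_diffContOnCl hw) hmem (by
        intro z hz
        rw [mem_reProdIm] at hz
        simp only [Function.comp_apply]
        rw [Set.mem_ofPred_eq, h4]
        exact norm_GG_le hw hx (le_of_lt hz.1) (le_of_lt hz.2))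
    have hI : (((1 : ℝ) : ℂ) * I) ∈ closure ((Ioi (0 : ℝ)) ×ℂ (Ioi (0 : ℝ))) := by
      rw [closure_quadrant, mem_reProdIm]
      simp
    have h5 := key hI
    simp only [Function.comp_apply, Function.const_apply] at h5
    rw [h4] at h5
    have h6 := norm_FF_imag hw hn (η := 1) one_pos
    have h7 : 0 < ‖FF w (((1 : ℝ) : ℂ) * I)‖ := norm_pos_iff.2 (FF_ne hw (by simp))
    unfold GG at h5
    rw [norm_div, div_eq_one_iff_eq (ne_of_gt h7)] at h5
    linarith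

end Pool.Agent.MP_fe2d2a_an
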